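import Mathlib
import Pool.Agent.Y740.RL.BogE

/-!
# The Bogomolov property for finite extensions of torsion fields of elliptic curves

Let `W` be an elliptic curve over a number field `K`, which has potentially good, supersingular
reduction at a prime `𝔭` of `K` above the prime number `p`. Let `S` be a Galois extension of `K`,
for example `S = K`, or an abelian extension with bounded ramification indices above `𝔭`, or an
extension with bounded local degrees above `𝔭`. Let `F₀ = S(Γ)` be the field generated over `S` by
the coordinates of the points of a set `Γ` of torsion points of `W` of order prime to `p`. Then all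
finite extensions `F` of `F₀` have the Bogomolov property with respect to `W`: the Néron-Tate
heights of the points of infinite order of `W(F)` are bounded from below by a positive constant,
which depends on `W`, `𝔭`, the degree of `F` over `F₀` and the numbers `n`, `B`, `e` in the
condition on `S` only.

The condition on `S` is that for all finite Galois extensions `E` of `K` contained in `S` the
ramification indices above `𝔭` are at most `e` and the `n`-th powers of the elements of the
decomposition groups above `𝔭` have at most `B` conjugates in the Galois group. The points of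
`W(F)` are the points of `W` over the number fields `L` contained in `F`.
-/

set_option autoImplicit false

namespace Pool.Agent.Results.MP_d03a5a_nt.EllipticTorsionBogomolov

open MvPolynomial NumberField Module Filter Topology
open scoped Pointwise

/-- A pair `G` of binary forms of degree `q` over the number field `k` has *good, purely
inseparable reduction* at the finite place `v`: all coefficients are `v`-integral, those of the
monomials other than `X ^ q` and `Y ^ q` are in the maximal ideal, and the determinant of the
coefficients of `X ^ q` and `Y ^ q` is a unit at `v`. -/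
def GoodInseparable {k : Type} [Field k] [NumberField k] (v : FinitePlace k) (q : ℕ)
    (G : Fin 2 → MvPolynomial (Fin 2) k) : Prop :=
  (∀ i m, v ((G i).coeff m) ≤ 1) ∧
  (∀ i m, m ≠ Finsupp.single 0 q → m ≠ Finsupp.single 1 q → v ((G i).coeff m) < 1) ∧
  v ((G 0).coeff (Finsupp.single 0 q) * (G 1).coeff (Finsupp.single 1 q) -
    (G 0).coeff (Finsupp.single 1 q) * (G 1).coeff (Finsupp.single 0 q)) = 1

/-- The pair `F` of binary forms over `K` has *potentially good, purely inseparable reduction*
above the prime ideal `𝔭` of `K`, which contains `p`: there are a number field `K'` containing `K`,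
an invertible matrix `A` over `K'` and a pair `G` of binary forms of degree `q` over `K'` with
`A ∘ F = G ∘ A`, which has good, purely inseparable reduction at a finite place `v` of `K'` above
`𝔭`. -/
def PotentiallyInseparable {K : Type} [Field K] [NumberField K] (𝔭 : Ideal (𝓞 K)) (p q : ℕ)
    (F : Fin 2 → MvPolynomial (Fin 2) K) : Prop :=
  ∃ (K' : Type) (_ : Field K') (_ : NumberField K') (_ : Algebra K K')
    (A : Matrix (Fin 2) (Fin 2) K') (G : Fin 2 → MvPolynomial (Fin 2) K') (v : FinitePlace K'),
    A.det ≠ 0 ∧ (∀ i, (G i).IsHomogeneous q) ∧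
    (∀ i, ∑ j, C (A i j) * map (algebraMap K K') (F j) =
      bind₁ (fun k => ∑ l, C (A k l) * X l) (G i)) ∧
    v.maximalIdeal.asIdeal.under (𝓞 K) = 𝔭 ∧ v (p : K') < 1 ∧ GoodInseparable v q G

/-- the map defined by a pair of forms, on coordinate vectors over an extension -/
noncomputable def evalMap {K L : Type} [Field K] [Field L] [Algebra K L]
    (F : Fin 2 → MvPolynomial (Fin 2) K) (y : Fin 2 → L) : Fin 2 → L := fun i => aeval y (F i)

/-- the coordinate vector `(x : 1)` of the first coordinate of a point of the curve `W` over `L`,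
and `(1 : 0)` for the point at infinity -/
noncomputable def xCoord {L : Type} [Field L] {W : WeierstrassCurve.Affine L} :
    W.Point → Fin 2 → L
  | .zero => ![1, 0]
  | .some x _ _ => ![x, 1]

open Classical in
/-- the pair `F` of forms of degree `p ^ 2` gives the multiplication by `p` of the curve `W` on
first coordinates, `x(p P) = F(x(P))`, for the points over all number fields containing `K` -/
def IsMultiplication {K : Type} [Field K] [NumberField K] (W : WeierstrassCurve.Affine K) (p : ℕ)
    (F : Fin 2 → MvPolynomial (Fin 2) K) : Prop :=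
  (∀ i, (F i).IsHomogeneous (p ^ 2)) ∧
  ∀ (L : Type) [Field L] [NumberField L] [Algebra K L] (P : (W.baseChange L).Point),
    ∃ c : L, c ≠ 0 ∧ evalMap F (xCoord P) = c • xCoord (p • P)

/-- The elliptic curve `W` is *potentially supersingular* at the prime ideal `𝔭` of `K`, which
contains `p`: the pair of forms which gives the multiplication by `p` on first coordinates has
potentially good, purely inseparable reduction above `𝔭`. -/
def PotentiallySupersingular {K : Type} [Field K] [NumberField K] (W : WeierstrassCurve.Affine K)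
    (𝔭 : Ideal (𝓞 K)) (p : ℕ) : Prop :=
  ∃ F : Fin 2 → MvPolynomial (Fin 2) K,
    IsMultiplication W p F ∧ PotentiallyInseparable 𝔭 p (p ^ 2) F

open Classical in
/-- `h` is the Néron-Tate height (relative to the origin) of the point `P` over the number field
`L`, computed with the multiplication by `m`: half the limit of `h(x(m ^ k P)) / m ^ (2 k)`, where
`h` is the absolute logarithmic Weil height, that is Mathlib's (relative) `Height.logHeight`
divided by `[L : ℚ]` -/
def IsNeronTateHeight {L : Type} [Field L] [NumberField L] {W : WeierstrassCurve.Affine L}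
    (m : ℕ) (P : W.Point) (h : ℝ) : Prop :=
  Tendsto (fun k : ℕ => Height.logHeight (xCoord (m ^ k • P)) /
    (2 * (finrank ℚ L : ℝ) * (m : ℝ) ^ (2 * k))) atTop (𝓝 h)

/-- the `n`-th powers of the elements of the decomposition groups of the primes of `E` above `𝔭`
have at most `B` conjugates in the Galois group of `E` over `K` -/
def FewConjugates {K : Type} [Field K] [NumberField K] (𝔭 : Ideal (𝓞 K)) (E : Type) [Field E]
    [NumberField E] [Algebra K E] (n B : ℕ) : Prop :=
  ∀ 𝔓 : Ideal (𝓞 E), 𝔓.IsMaximal → 𝔓.LiesOver 𝔭 → ∀ σ : Gal(E/K), σ • 𝔓 = 𝔓 →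
    (Set.range fun g : Gal(E/K) => g * σ ^ n * g⁻¹).ncard ≤ B

/-- the condition on the extension `S` of `K`: all number fields `E` in `S` which are Galois over
`K` satisfy `FewConjugates` and have ramification indices at most `e` above `𝔭` -/
def Admissible {K : Type} [Field K] [NumberField K] (𝔭 : Ideal (𝓞 K)) (S : Type) [Field S]
    [Algebra K S] (n B e : ℕ) : Prop :=
  ∀ (E : Type) [Field E] [NumberField E] [Algebra K E] [IsGalois K E], Nonempty (E →ₐ[K] S) →
    FewConjugates 𝔭 E n B ∧
    ∀ 𝔓 : Ideal (𝓞 E), 𝔓.IsMaximal → 𝔓.LiesOver 𝔭 → 𝔓.ramificationIdx (𝓞 K) ≤ e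

/-- the set of the coordinates of the points of the set `Γ` of points of the curve `W` over `Ω` -/
def coordinates {K : Type} [Field K] (W : WeierstrassCurve.Affine K) {Ω : Type} [Field Ω]
    [Algebra K Ω] (Γ : Set (W.baseChange Ω).Point) : Set Ω :=
  {t | ∃ (x y : Ω) (h : (W.baseChange Ω).Nonsingular x y),
    (WeierstrassCurve.Affine.Point.some x y h : (W.baseChange Ω).Point) ∈ Γ ∧ (t = x ∨ t = y)}

open Classical in
/-- the field `F₀` is generated over `S` by the coordinates of the points of a set of torsion
points of the curve `W` of order prime to `p` -/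
def GeneratedByTorsion {K : Type} [Field K] (W : WeierstrassCurve.Affine K) (p : ℕ) {Ω : Type}
    [Field Ω] [Algebra K Ω] (S F₀ : IntermediateField K Ω) : Prop :=
  ∃ Γ : Set (W.baseChange Ω).Point, (∀ T ∈ Γ, ∃ m : ℕ, m.Coprime p ∧ m • T = 0) ∧
    F₀ = IntermediateField.adjoin K ((S : Set Ω) ∪ coordinates W Γ)

open Classical in
/-- all points of infinite order of the curve `W` over the algebraic extension `F` of `K` have
Néron-Tate height at least `ε`: this holds for the points over all number fields `L` which embed
into `F` over `K` -/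
def HeightsAtLeast {K : Type} [Field K] [NumberField K] (W : WeierstrassCurve.Affine K) (p : ℕ)
    (F : Type) [Field F] [Algebra K F] (ε : ℝ) : Prop :=
  ∀ (L : Type) [Field L] [NumberField L] [Algebra K L], Nonempty (L →ₐ[K] F) →
    ∀ P : (W.baseChange L).Point, ¬ IsOfFinAddOrder P → ∃ h : ℝ, IsNeronTateHeight p P h ∧ ε ≤ h

/-- **Main result.** -/
theorem result (K : Type) [Field K] [NumberField K] (W : WeierstrassCurve.Affine K)
    [W.IsElliptic] (p : ℕ) (hp : p.Prime) (𝔭 : Ideal (𝓞 K))
    (hss : PotentiallySupersingular W 𝔭 p)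
    -- `n = B = e = 1` allows `S = K`
    (n B e d : ℕ) (hn : 1 ≤ n) :
    ∃ ε : ℝ, 0 < ε ∧ ∀ (Ω : Type) [Field Ω] [Algebra K Ω] [Algebra.IsAlgebraic K Ω]
      (S F₀ : IntermediateField K Ω) [IsGalois K S], Admissible 𝔭 S n B e →
      GeneratedByTorsion W p S F₀ → ∀ (F : IntermediateField F₀ Ω) [FiniteDimensional F₀ F],
      finrank F₀ F ≤ d → HeightsAtLeast W p F ε := by
  classical
  obtain ⟨F, ⟨hF, hmul⟩, K', i1, i2, i3, A, G, v, hA, hG, hconj, hv𝔭, hv, h1, h2, h3⟩ := hss
  subst hv𝔭
  have hxc : ∀ (M : Type) [Field M] (V : WeierstrassCurve.Affine M) (Q : V.Point),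
      xCoord Q = Pool.Agent.Y740.RL.xc Q := by
    intro M _ V Q
    cases Q <;> rfl
  have hmul' : ∀ (M : Type) [Field M] [NumberField M] [Algebra K M] [DecidableEq M]
      (Q : (W.baseChange M).Point), ∃ c : M, c ≠ 0 ∧
      Pool.Agent.H420R3.act F (Pool.Agent.Y740.RL.xc Q) =
        c • Pool.Agent.Y740.RL.xc (p • Q) := by
    intro M _ _ _ dM Q
    obtain ⟨c, hc, hc'⟩ := hmul M Q
    rw [hxc, hxc] at hc'
    have hd : dM = Classical.decEq M := Subsingleton.elim _ _
    subst hd
    exact ⟨c, hc, hc'⟩
  obtain ⟨C, hC, hmain⟩ := Pool.Agent.Y740.RL.bogE W hp F hF K' A hA G hG hconj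
    v hv ⟨h1, h2, h3⟩ hmul' B n hn
  set D : ℕ := max 1 d with hD
  set e' : ℕ := max 1 e with he'
  have hD1 : (1 : ℝ) ≤ D := by exact_mod_cast le_max_left 1 d
  have he1 : (1 : ℝ) ≤ e' := by exact_mod_cast le_max_left 1 e
  refine ⟨Real.exp (-(C * Real.sqrt (1 + Real.log D))) / (C * e' * D) / 2, by positivity, ?_⟩
  intro Ω _ _ _ S F₀ _ hS hF₀ M iM hd L _ _ _ hι P hP
  obtain ⟨ι⟩ := hι
  obtain ⟨Γ, hΓ, hF₀⟩ := hF₀
  obtain ⟨h, hlim, hb⟩ := hmain Ω S e' (fun E _ _ _ _ hE => ⟨(hS E hE).1,
    fun 𝔓 h5 h6 => ((hS E hE).2 𝔓 h5 h6).trans (le_max_right _ _)⟩) Γ hΓ F₀ hF₀ M L ι P hP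
  refine ⟨h / 2, ?_, ?_⟩
  · unfold IsNeronTateHeight
    refine (hlim.div_const 2).congr fun k => ?_
    rw [hxc, div_div]
    congr 1
    ring
  · refine div_le_div_of_nonneg_right (le_trans ?_ hb) (by norm_num)
    have h4 : finrank F₀ M ≤ D := hd.trans (le_max_right _ _)
    have h5 : (1 : ℝ) ≤ finrank F₀ M := by
      exact_mod_cast (finrank_pos : 0 < finrank F₀ M)
    have h6 : (finrank F₀ M : ℝ) ≤ D := by exact_mod_cast h4
    have h7 : Real.log (finrank F₀ M) ≤ Real.log D := Real.log_le_log (by linarith) h6
    have h8 : 0 < C * e' * (finrank F₀ M : ℝ) := by positivity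
    gcongr

end Pool.Agent.Results.MP_d03a5a_nt.EllipticTorsionBogomolov
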