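import Pool.Agent.Y348.BG.Small

/-!
# The Bogomolov property is lost in a quadratic extension without any new torsion

Negative answer to Q1 of MP_d03a5a_nt for the multiplicative group in a strong form: one pair
`F₀ ⊂ F` of fields of algebraic numbers, both Galois over `ℚ`, with `[F : F₀] = 2`, `F₀` totally
real, the only roots of unity in `F` being `1` and `-1`, all elements `≠ 0, 1, -1` of `F₀` of height
at least `log 2 / 8`, while `F` contains numbers `x`, not roots of unity, of arbitrarily large degree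
`D` and of height at most `62 log D / D`. The pair answers the question for all base fields `K` which
are totally real and in which `3` splits completely.
-/

set_option autoImplicit false

open ComplexConjugate Pool.Agent.H319R3.Bogo

theorem Pool.Agent.Results.MP_d03a5a_nt.NoNewTorsion.result :
    ∃ (F₀ F : IntermediateField ℚ (AlgebraicClosure ℚ)) (h : F₀ ≤ F),
      IsGalois ℚ F₀ ∧ IsGalois ℚ F ∧
      Module.finrank F₀ (IntermediateField.extendScalars h) = 2 ∧
      torsGm F₀ = {1, -1} ∧ torsGm F = {1, -1} ∧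
      (∀ x ∈ F₀, ∀ φ : AlgebraicClosure ℚ →ₐ[ℚ] ℂ, conj (φ x) = φ x) ∧
      (∀ x ∈ F₀, x ≠ 0 → x ≠ 1 → x ≠ -1 → Real.log 2 / 8 ≤ height x) ∧
      BogomolovGm F₀ ∧ ¬ BogomolovGm F ∧
      (∀ N : ℕ, ∃ x ∈ F, N ≤ (minpoly ℚ x).natDegree ∧ (∀ m : ℕ, 0 < m → x ^ m ≠ 1) ∧
        (∀ φ : AlgebraicClosure ℚ →ₐ[ℚ] ℂ, ‖φ x‖ = 1) ∧
        height x ≤ 62 * Real.log (minpoly ℚ x).natDegree / (minpoly ℚ x).natDegree) ∧
      ∀ K : IntermediateField ℚ (AlgebraicClosure ℚ),
        (∀ x ∈ K, ∀ φ : AlgebraicClosure ℚ →ₐ[ℚ] ℂ, conj (φ x) = φ x) →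
        (∀ x ∈ K, ∀ ψ : AlgebraicClosure ℚ →ₐ[ℚ] PadicAlgCl 3,
          ∃ a : ℚ_[3], algebraMap ℚ_[3] (PadicAlgCl 3) a = ψ x) →
        ∃ hK : K ≤ F₀, IsGalois K (IntermediateField.extendScalars hK) ∧
          IsGalois K (IntermediateField.extendScalars (hK.trans h)) := by
  refine ⟨FF0, FF, FF0_le, Pool.Agent.Y348.BG.FF0_galois, FF_normal,
    Pool.Agent.Y348.BG.finrank_two, ?_, ?_, ?_, ?_, bogo_FF0, not_bogo_FF, ?_, ?_⟩
  · ext x
    constructor
    · rintro ⟨hx, m, hm, hxm⟩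
      exact torsion_FF x (FF0_le hx) m hm hxm
    · rintro (rfl | rfl)
      · exact ⟨FF0.one_mem, 1, one_pos, one_pow 1⟩
      · exact ⟨FF0.neg_mem FF0.one_mem, 2, two_pos, by norm_num⟩
  · ext x
    constructor
    · rintro ⟨hx, m, hm, hxm⟩
      exact torsion_FF x hx m hm hxm
    · rintro (rfl | rfl)
      · exact ⟨FF.one_mem, 1, one_pos, one_pow 1⟩
      · exact ⟨FF.neg_mem FF.one_mem, 2, two_pos, by norm_num⟩
  · intro x hx
    exact ((mem_FF0 x).1 hx).1
  · intro x hx h0 h1 h2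
    exact height_lower x h0 h1 h2 ((mem_FF0 x).1 hx).1
  · intro N
    obtain ⟨x, hx, hd, ht, hc, hh⟩ := Pool.Agent.Y348.BG.small_points_deg (N + 1) (by omega)
    refine ⟨x, hx, le_trans ?_ hd, ht, hc, hh⟩
    exact (Nat.lt_pow_self (by norm_num : 1 < 3)).le.trans
      (Nat.pow_le_pow_right (by norm_num) (by omega))
  · intro K h1 h2
    have hK := Pool.Agent.Y348.BG.le_FF0 K h1 h2
    exact ⟨hK, Pool.Agent.Y348.BG.gal_over K FF0 hK Pool.Agent.Y348.BG.FF0_stable,
      Pool.Agent.Y348.BG.gal_over K FF (hK.trans FF0_le) FF_stable⟩
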